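import Pool.Agent.H857.MX.Master
import Pool.Agent.H857.MX.Good
import Pool.Graph.R_pool_sql_team_seeded_2aa45f1a.Q306.FG.Thms

/-!
# MP_e93a6a_ag: finite generation of the étale cohomology of the cycle complexes of negative
weights of `A × Z`, for arbitrary schemes `Z` over finite fields and all abelian varieties `A` but
a set of isogeny classes of the exact order of magnitude of its size

Let `g i` (`i` in a finite set `I`) be positive integers. For a prime power `q = p ^ a` let
`families g p a` be the finite set of the families `f i` of Weil polynomials of degrees `2 g i`
relative to `q` with integral Newton polygons. It contains the families of the characteristic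
polynomials of the Frobenius endomorphisms of abelian varieties `A i` of dimensions `g i` over the
field with `q` elements (Weil), which determine the `A i` up to isogeny (Tate). It has about `q ^
(∑ g i (g i + 1) / 4)` elements.

Let the `ρ k` be `r` Weil numbers of weights less than `c` with slopes in `(1 / D) ℤ`, for
instance the eigenvalues of Frobenius on the `ℓ`-adic cohomology of a variety over the field with
`q` elements. The family `f` is exceptional if there is a multiplicative relation between roots of
the `f i`, the numbers `ρ k` and `q`, up to roots of unity, which does not come from the pairs of
conjugate roots `z`, `q / z`.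

1. The proportion of the exceptional families among all the families is of the exact order of
magnitude `∑ q ^ (- δ (g i) / 2)`, where `δ (g) = g` for `g ≠ 2` and `δ (2) = 1`: it is at most
`C` times, and at least `1 / C` times this sum. The constant `C` depends only on the `g i`, on
`r`, `c` and `D` - not on `p`, `q` and the `ρ k`.

2. Let `f` be a family which is not exceptional, and let `A` be an abelian variety over the field
with `Q = q ^ s` elements, `s > 0`, which is isogenous to a product of powers of abelian varieties
`A i` with characteristic polynomials `f i`. Let `Z` be **any** separated scheme of finite type
over the field with `Q` elements such that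

* the eigenvalues of Frobenius on the `ℓ`-adic homology of `Z` lie, up to powers, in the group
  generated by the `ρ k` and `q` (`Generated`);
* the Frobenius endomorphism of `Z` satisfies on each group of motivic homology of `A × Z` a
  nonzero polynomial with rational coefficients whose complex roots have the same property. For
  instance this is so if the motive of `Z` is built from finite-dimensional motives (Kimura) of
  smooth projective varieties which satisfy the first condition.

**For every `n < 0` the groups `H^i((A × Z)_et, ℤ^c(n))` are finitely generated for all `i`
(question Q1 for `A × Z` and `n`) if and only if the groups `H^i(Z_et, ℤ^c(n'))` are finitely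
generated for all `i` and all `n'` with `n - dim A ≤ n' ≤ n`** (`HomologyReduces`). In particular
question Q1 for `A × Z` and all `n < 0` is equivalent to question Q1 for `Z` and all `n < 0`. `Z`
may be singular, reducible and not proper; no resolution of singularities and no case of the
conjectures of Tate, Beilinson and Parshin is assumed.

What is used of `A` are known theorems (`IsAbelian`): `H(A)` is generated by `H^1`, Frobenius is
diagonalizable on `H^1` (Weil), the theorem of Tate on divisors, and the nilpotence of
homologically trivial correspondences (Kimura). The motivic (Borel-Moore) homology with rational
coefficients of `Z` and of `A × Z` is modelled by `RelData`, with the formal properties in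
`IsTheory`: degrees, products with classes on `A`, push-forward to `Z`, the projection formula,
the operation of the correspondences of `A` and of the Frobenius endomorphism of `Z`. The groups
are numbered as follows: `H^i(Z, ℚ^c(n))` has the bidegree `(i, - n)`, and `H^i(A × Z, ℚ^c(n))`
has the bidegree `(i + 2 dim A, dim A - n)`; so the product with a class of codimension `c` on `A`
has the bidegree `(2 c, c)`. The operator `frobN`, `frobM` is the inverse of the push-forward by
the Frobenius endomorphism of `Z`; then the Frobenius endomorphism of `A × Z` is the
multiplication by `Q ^ j` in the bidegree `(i, j)` (`IsPure`). The groups with coefficients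
`ℤ^c(n)` and `ℚ/ℤ^c(n)` belong to the long exact sequences of `0 → ℤ^c(n) → ℚ^c(n) → ℚ/ℤ^c(n) → 0`
(`EtaleData`, `IsEtale`). It is known that `H^i(X_et, ℚ/ℤ^c(n))` is finite for `n < 0` and all
separated schemes `X` of finite type over a finite field (`FiniteTorsion`): there is no
`p`-primary part, and the other parts are dual to the cohomology with compact supports and
coefficients `ℤ_l(n)`, of weights at least `- 2 n > 0` (Deligne, Gabber, de Jong).

The framework and the geometric part (`Q306.FG.homologyReduces`) are those of the theorem
`AllCMTypesTimes` of the library, which bounds the number of the exceptional slope types of CM
fields and asks that the eigenvalues of the other factor are unrelated to these fields. In other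
theorems of the library the exceptional set of isogeny classes has a proportion `O (q ^ (-1 / 6)
log q)`, without a lower bound, for other factors with eigenvalues in a group of small rank over a
fixed number field. New here are the arbitrary eigenvalues, the uniformity in `p` and the exact
order of magnitude of the exceptional set. The count is that of MP_557161_ag: the slopes bound the
exponents of the relations, up to proportionality, and each relation is a nontrivial algebraic
equation for the coefficients on almost all pencils of Weil polynomials, by the expansions of the
roots at infinity.
-/

set_option autoImplicit false

namespace Pool.Agent.Results.MP_e93a6a_ag.SharpExceptionalSet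

open Pool.Agent.H857.SX Pool.Agent.H857.MX Pool.Agent.Q306.FG

/-- **The exceptional set.** -/
theorem result {I : Type} [Fintype I] (g : I → ℕ) (hg : ∀ i, 0 < g i) (r D c : ℕ) (hD : 0 < D) :
    ∃ C : ℝ, 0 < C ∧ ∀ (p : ℕ) [Fact p.Prime] (a : ℕ), 0 < a →
      ((families g p a).Finite ∧
        ∏ i, Real.sqrt ((p : ℝ) ^ a) ^ (g i * (g i + 1) / 2) ≤ C * (families g p a).ncard ∧
        (families g p a).ncard ≤ C * ∏ i, Real.sqrt ((p : ℝ) ^ a) ^ (g i * (g i + 1) / 2)) ∧
      ∀ (w : Fin r → ℕ) (ρ : Fin r → ℂ), (∀ k, w k < c ∧ IsWeilNumber p a D (w k) (ρ k)) →
        (({f ∈ families g p a | ¬ Independent f (p ^ a) ρ}.ncard : ℝ) ≤
            C * (rate g ((p : ℝ) ^ a) * (families g p a).ncard) ∧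
          rate g ((p : ℝ) ^ a) * (families g p a).ncard ≤
            C * {f ∈ families g p a | ¬ Independent f (p ^ a) ρ}.ncard) ∧
        ∀ f ∈ families g p a, Independent f (p ^ a) ρ →
          HomologyReduces (RootsIn (Generated (p ^ a) ρ)) (p ^ a) f :=
  Pool.Agent.H857.MX.master g hg r D c hD (fun q f R => HomologyReduces (RootsIn R) q f)
    fun _ _ _ hq _ h0 hR => homologyReduces hq (good_of_noRel hR h0)

end Pool.Agent.Results.MP_e93a6a_ag.SharpExceptionalSet
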